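import Mathlib

set_option autoImplicit false
open Filter Topology Finset

namespace Pool.Agent.H186Z.Precut

section general
variable {G : Type} [Group G] [Fintype G] [DecidableEq G]

/-- the law of the walk after `k` steps -/
noncomputable def cp (p : G → ℝ) (k : ℕ) (g : G) : ℝ :=
  ∑ f ∈ (Finset.univ : Finset (Fin k → G)).filter (fun f => (List.ofFn f).prod = g),
    ∏ i, p (f i)

lemma cp_zero (p : G → ℝ) (g : G) : cp p 0 g = if g = 1 then 1 else 0 := by
  unfold cp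
  rw [Finset.sum_filter]
  simp [eq_comm]

lemma cp_succ (p : G → ℝ) (k : ℕ) (g : G) :
    cp p (k + 1) g = ∑ x, p x * cp p k (x⁻¹ * g) := by
  unfold cp
  rw [Finset.sum_filter, ← (Fin.consEquiv (fun _ : Fin (k + 1) => G)).sum_comp,
    Fintype.sum_prod_type]
  refine Finset.sum_congr rfl fun x _ => ?_
  rw [Finset.sum_filter, Finset.mul_sum]
  refine Finset.sum_congr rfl fun f _ => ?_
  simp [Fin.consEquiv, List.ofFn_succ, Fin.prod_univ_succ, eq_inv_mul_iff_mul_eq]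

/-- keep with probability `r`, refresh with probability `1 - r` -/
noncomputable def w (r : ℝ) (a : G) : ℝ :=
  (if a = 1 then r else 0) + (1 - r) / (Fintype.card G : ℝ)

lemma card_pos' : (0 : ℝ) < (Fintype.card G : ℝ) := by
  have : 0 < Fintype.card G := Fintype.card_pos
  exact_mod_cast this

lemma sum_w (r : ℝ) : ∑ a : G, w r a = 1 := by
  have := card_pos' (G := G)
  simp only [w, Finset.sum_add_distrib, Finset.sum_ite_eq', Finset.mem_univ, if_true,
    Finset.sum_const, Finset.card_univ, nsmul_eq_mul]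
  field_simp
  ring

lemma sum_shift (F : G → ℝ) (g : G) : ∑ x, F (x⁻¹ * g) = ∑ x, F x :=
  ((Equiv.inv G).trans (Equiv.mulRight g)).sum_comp F

lemma w_conv (r s : ℝ) (a : G) : ∑ x, w r x * w s (x⁻¹ * a) = w (r * s) a := by
  have hc := card_pos' (G := G)
  have h1 : ∀ x : G, w r x * w s (x⁻¹ * a) =
      (if x = 1 then r * w s a else 0) + (1 - r) / (Fintype.card G : ℝ) * w s (x⁻¹ * a) := by
    intro x
    by_cases hx : x = 1
    · subst hx; simp [w]; ring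
    · simp [w, hx]
  simp only [h1, Finset.sum_add_distrib, Finset.sum_ite_eq', Finset.mem_univ, if_true,
    ← Finset.mul_sum]
  rw [sum_shift (w s) a, sum_w]
  unfold w
  split_ifs
  · field_simp; ring
  · field_simp; ring

lemma w_ge {r : ℝ} (hr : 0 ≤ r) (a : G) : (1 - r) / (Fintype.card G : ℝ) ≤ w r a := by
  unfold w
  split_ifs <;> linarith

end general

section prod
variable {A : Type} [Group A] [Fintype A] [DecidableEq A] {m : ℕ}

/-- the product of `m` refresh laws -/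
noncomputable def Q (r : ℝ) (g : Fin m → A) : ℝ := ∏ i, w r (g i)

lemma sum_Q (r : ℝ) : ∑ g : Fin m → A, Q r g = 1 := by
  unfold Q
  rw [← Fintype.piFinset_univ, ← Finset.prod_univ_sum (fun _ => univ) (fun _ a => w r a)]
  simp [sum_w]

lemma Q_conv (r s : ℝ) (g : Fin m → A) : ∑ x, Q r x * Q s (x⁻¹ * g) = Q (r * s) g := by
  unfold Q
  simp only [← Finset.prod_mul_distrib, Pi.mul_apply, Pi.inv_apply]
  rw [← Fintype.piFinset_univ,
    ← Finset.prod_univ_sum (fun _ => univ) (fun i a => w r a * w s (a⁻¹ * g i))]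
  simp [w_conv]

lemma Q_one (g : Fin m → A) : Q 1 g = if g = 1 then 1 else 0 := by
  unfold Q w
  simp only [sub_self, zero_div, add_zero]
  rw [Finset.prod_ite_zero]
  simp [funext_iff]

lemma card_eq : (Fintype.card (Fin m → A) : ℝ) = (Fintype.card A : ℝ) ^ m := by
  simp

lemma Q_ge {r : ℝ} (hr : 0 ≤ r) (hr1 : r ≤ 1) (g : Fin m → A) :
    (1 - r) ^ m / (Fintype.card (Fin m → A) : ℝ) ≤ Q r g := by
  have hc := card_pos' (G := A)
  rw [card_eq, ← div_pow]
  unfold Q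
  have : ((1 - r) / (Fintype.card A : ℝ)) ^ m = ∏ _i : Fin m, (1 - r) / (Fintype.card A : ℝ) := by
    rw [Finset.prod_const, Finset.card_univ, Fintype.card_fin]
  rw [this]
  apply Finset.prod_le_prod
  · intro i _
    exact div_nonneg (by linarith) hc.le
  · intro i _
    exact w_ge hr _

/-- the perturbed step law -/
noncomputable def P (θ : ℝ) (g : Fin m → A) : ℝ :=
  (1 - θ) * Q (1 / 2) g + θ / (Fintype.card (Fin m → A) : ℝ)

lemma sum_P (θ : ℝ) : ∑ g : Fin m → A, P θ g = 1 := by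
  have hc := card_pos' (G := Fin m → A)
  simp only [P, Finset.sum_add_distrib, ← Finset.mul_sum, sum_Q, Finset.sum_const,
    Finset.card_univ, nsmul_eq_mul]
  field_simp
  ring

lemma P_nonneg {θ : ℝ} (h0 : 0 ≤ θ) (h1 : θ ≤ 1) (g : Fin m → A) : 0 ≤ P θ g := by
  have hc := card_pos' (G := Fin m → A)
  have h2 := Q_ge (r := 1 / 2) (by norm_num) (by norm_num) g
  have h3 : (0 : ℝ) ≤ (1 - 1 / 2) ^ m / (Fintype.card (Fin m → A) : ℝ) := by positivity
  unfold P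
  have : 0 ≤ (1 - θ) * Q (1 / 2) g := mul_nonneg (by linarith) (by linarith)
  positivity

lemma cp_P (θ : ℝ) (k : ℕ) (g : Fin m → A) :
    cp (P θ) k g = (1 - θ) ^ k * Q ((1 / 2) ^ k) g +
      (1 - (1 - θ) ^ k) / (Fintype.card (Fin m → A) : ℝ) := by
  have hc := card_pos' (G := Fin m → A)
  induction k generalizing g with
  | zero => simp [cp_zero, Q_one]
  | succ k ih =>
    rw [cp_succ]
    simp only [ih]
    have h1 : ∀ x : Fin m → A, P θ x * ((1 - θ) ^ k * Q ((1 / 2) ^ k) (x⁻¹ * g) +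
        (1 - (1 - θ) ^ k) / (Fintype.card (Fin m → A) : ℝ)) =
        (1 - θ) ^ (k + 1) * (Q (1 / 2) x * Q ((1 / 2) ^ k) (x⁻¹ * g)) +
        θ / (Fintype.card (Fin m → A) : ℝ) * (1 - θ) ^ k * Q ((1 / 2) ^ k) (x⁻¹ * g) +
        (1 - (1 - θ) ^ k) / (Fintype.card (Fin m → A) : ℝ) * P θ x := by
      intro x
      unfold P
      ring
    simp only [h1, Finset.sum_add_distrib, ← Finset.mul_sum]
    rw [Q_conv, sum_shift (Q ((1 / 2) ^ k)) g, sum_Q, sum_P, ← pow_succ']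
    field_simp
    ring

/-- the distance to uniformity of the product law -/
noncomputable def D (A : Type) [Group A] [Fintype A] [DecidableEq A] (m : ℕ) (r : ℝ) : ℝ :=
  (1 / 2 : ℝ) * ∑ g : Fin m → A, |Q r g - 1 / (Fintype.card (Fin m → A) : ℝ)|

lemma dist_P {θ : ℝ} (h1 : θ ≤ 1) (k : ℕ) :
    (1 / 2 : ℝ) * ∑ g : Fin m → A, |cp (P θ) k g - 1 / (Fintype.card (Fin m → A) : ℝ)| =
      (1 - θ) ^ k * D A m ((1 / 2) ^ k) := by
  have hc := card_pos' (G := Fin m → A)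
  have h2 : (0 : ℝ) ≤ (1 - θ) ^ k := pow_nonneg (by linarith) _
  have h3 : ∀ g : Fin m → A, |cp (P θ) k g - 1 / (Fintype.card (Fin m → A) : ℝ)| =
      (1 - θ) ^ k * |Q ((1 / 2) ^ k) g - 1 / (Fintype.card (Fin m → A) : ℝ)| := by
    intro g
    have e : cp (P θ) k g - 1 / (Fintype.card (Fin m → A) : ℝ) =
        (1 - θ) ^ k * (Q ((1 / 2) ^ k) g - 1 / (Fintype.card (Fin m → A) : ℝ)) := by
      rw [cp_P]
      ring
    rw [e, abs_mul, abs_of_nonneg h2]
  simp only [h3, ← Finset.mul_sum, D]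
  ring

lemma D_nonneg (r : ℝ) : 0 ≤ D A m r := by
  unfold D
  positivity

lemma D_le {r : ℝ} (hr : 0 ≤ r) (hr1 : r ≤ 1) : D A m r ≤ 1 - (1 - r) ^ m := by
  have hc := card_pos' (G := Fin m → A)
  have hp : (1 - r) ^ m ≤ 1 := pow_le_one₀ (by linarith) (by linarith)
  have h1 : ∀ g : Fin m → A, |Q r g - 1 / (Fintype.card (Fin m → A) : ℝ)| ≤
      Q r g + (1 - 2 * (1 - r) ^ m) / (Fintype.card (Fin m → A) : ℝ) := by
    intro g
    have h2 := Q_ge hr hr1 g
    have h3 : (1 - r) ^ m / (Fintype.card (Fin m → A) : ℝ) ≤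
        1 / (Fintype.card (Fin m → A) : ℝ) := div_le_div_of_nonneg_right hp hc.le
    have h4 : (1 - 2 * (1 - r) ^ m) / (Fintype.card (Fin m → A) : ℝ) =
        1 / (Fintype.card (Fin m → A) : ℝ) - 2 * ((1 - r) ^ m / (Fintype.card (Fin m → A) : ℝ)) := by
      ring
    rw [h4, abs_le]
    constructor <;> linarith
  have h5 := Finset.sum_le_sum (s := univ) fun g _ => h1 g
  rw [Finset.sum_add_distrib, sum_Q, Finset.sum_const, Finset.card_univ, nsmul_eq_mul,
    mul_div_cancel₀ _ hc.ne'] at h5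
  unfold D
  linarith

lemma D_ge {r : ℝ} (hr : 0 ≤ r) (hr1 : r ≤ 1) :
    (1 / 2 : ℝ) * ((1 - (1 - r) ^ m) * (1 - 1 / (Fintype.card A : ℝ)) ^ m) ≤ D A m r := by
  have hc := card_pos' (G := Fin m → A)
  have hA := card_pos' (G := A)
  have hp : (1 - r) ^ m ≤ 1 := pow_le_one₀ (by linarith) (by linarith)
  have h1 : ∀ g : Fin m → A,
      (1 - (1 - r) ^ m) * ∏ i, (if g i = 1 then 0 else 1 / (Fintype.card A : ℝ)) ≤
        |Q r g - 1 / (Fintype.card (Fin m → A) : ℝ)| := by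
    intro g
    by_cases hg : ∃ i, g i = 1
    · obtain ⟨i, hi⟩ := hg
      rw [Finset.prod_eq_zero (Finset.mem_univ i) (by simp [hi]), mul_zero]
      exact abs_nonneg _
    · push Not at hg
      have e1 : Q r g = (1 - r) ^ m / (Fintype.card (Fin m → A) : ℝ) := by
        unfold Q w
        simp [hg, div_pow]
      have e2 : ∏ i, (if g i = 1 then 0 else 1 / (Fintype.card A : ℝ)) =
          1 / (Fintype.card (Fin m → A) : ℝ) := by
        simp [hg]
      rw [e1, e2, abs_sub_comm]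
      refine le_trans (le_of_eq ?_) (le_abs_self _)
      ring
  have h5 := Finset.sum_le_sum (s := univ) fun g _ => h1 g
  have h6 : ∑ a : A, (if a = 1 then 0 else 1 / (Fintype.card A : ℝ)) =
      1 - 1 / (Fintype.card A : ℝ) := by
    have : ∀ a : A, (if a = 1 then 0 else 1 / (Fintype.card A : ℝ)) =
        1 / (Fintype.card A : ℝ) - (if a = 1 then 1 / (Fintype.card A : ℝ) else 0) := by
      intro a; split_ifs <;> simp
    simp only [this, Finset.sum_sub_distrib, Finset.sum_ite_eq', Finset.mem_univ, if_true,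
      Finset.sum_const, Finset.card_univ, nsmul_eq_mul]
    field_simp
  rw [← Finset.mul_sum, ← Fintype.piFinset_univ, ← Finset.prod_univ_sum (fun _ => univ)
    (fun _ a => if a = 1 then 0 else 1 / (Fintype.card A : ℝ))] at h5
  simp only [h6, Finset.prod_const, Finset.card_univ, Fintype.card_fin,
    Fintype.piFinset_univ] at h5
  unfold D
  linarith

end prod

/-- the coordinate group: cyclic of order `4 · 2^n` -/
abbrev A (n : ℕ) : Type := Multiplicative (ZMod (4 * 2 ^ n))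

instance (n : ℕ) : NeZero (4 * 2 ^ n) := ⟨by positivity⟩

/-- the groups of the example -/
abbrev GG (n : ℕ) : Type := Fin (2 ^ n) → A n

/-- the weight of the uniform jump -/
noncomputable def th (n : ℕ) : ℝ := 1 / (2 * ((n : ℝ) + 1))

/-- the distance to uniformity after `k` steps -/
noncomputable def dd (n k : ℕ) : ℝ := (1 - th n) ^ k * D (A n) (2 ^ n) ((1 / 2) ^ k)

lemma th_pos (n : ℕ) : 0 < th n := by unfold th; positivity

lemma th_le (n : ℕ) : th n ≤ 1 := by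
  unfold th
  rw [div_le_one (by positivity)]
  have : (0 : ℝ) ≤ n := Nat.cast_nonneg n
  linarith

lemma half_pow_le (k : ℕ) : ((1 : ℝ) / 2) ^ k ≤ 1 := pow_le_one₀ (by norm_num) (by norm_num)

lemma dd_nonneg (n k : ℕ) : 0 ≤ dd n k :=
  mul_nonneg (pow_nonneg (by linarith [th_le n]) _) (D_nonneg _)

lemma one_sub_pow_le {x : ℝ} (h0 : 0 ≤ x) (h1 : x ≤ 1) (k : ℕ) :
    (1 - x) ^ k * (1 + k * x) ≤ 1 := by
  have h2 : 1 + (k : ℝ) * x ≤ (1 + x) ^ k := one_add_mul_le_pow (by linarith) k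
  have h3 : (0 : ℝ) ≤ (1 - x) ^ k := pow_nonneg (by linarith) _
  calc (1 - x) ^ k * (1 + k * x) ≤ (1 - x) ^ k * (1 + x) ^ k := mul_le_mul_of_nonneg_left h2 h3
    _ = (1 - x ^ 2) ^ k := by rw [← mul_pow]; ring_nf
    _ ≤ 1 := pow_le_one₀ (by nlinarith) (by nlinarith)

lemma dd_le_small (n : ℕ) : dd n (2 * n) ≤ (1 / 2) ^ n := by
  have h0 : (0 : ℝ) ≤ (1 / 2) ^ (2 * n) := by positivity
  have h1 := D_le (A := A n) (m := 2 ^ n) h0 (half_pow_le _)
  have h2 : 1 + ((2 ^ n : ℕ) : ℝ) * (-(1 / 2) ^ (2 * n)) ≤ (1 + (-(1 / 2) ^ (2 * n))) ^ (2 ^ n) :=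
    one_add_mul_le_pow (by linarith [half_pow_le (2 * n)]) _
  have h3 : ((2 ^ n : ℕ) : ℝ) * (1 / 2) ^ (2 * n) = (1 / 2) ^ n := by
    push_cast
    rw [two_mul, pow_add, ← mul_assoc, ← mul_pow]
    norm_num
  have h4 : (1 - th n) ^ (2 * n) ≤ 1 := pow_le_one₀ (by linarith [th_le n]) (by linarith [th_pos n])
  have h5 := D_nonneg (A := A n) (m := 2 ^ n) ((1 / 2) ^ (2 * n))
  unfold dd
  rw [← sub_eq_add_neg] at h2
  nlinarith

lemma dd_ge {n k : ℕ} (hk : k ≤ n) : 3 / 32 ≤ dd n k := by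
  have h0 : (0 : ℝ) ≤ (1 / 2) ^ k := by positivity
  have h1 := D_ge (A := A n) (m := 2 ^ n) h0 (half_pow_le _)
  have hcard : (Fintype.card (A n) : ℝ) = 4 * 2 ^ n := by
    simp [A, ZMod.card]
  have hpos : (0 : ℝ) < 2 ^ n := by positivity
  have h2 : 1 + ((2 ^ n : ℕ) : ℝ) * (-(1 / (4 * 2 ^ n))) ≤ (1 + (-(1 / (4 * 2 ^ n)))) ^ (2 ^ n) := by
    apply one_add_mul_le_pow
    have : (1 : ℝ) / (4 * 2 ^ n) ≤ 1 := by
      rw [div_le_one (by positivity)]
      have : (1 : ℝ) ≤ 2 ^ n := one_le_pow₀ (by norm_num)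
      linarith
    linarith
  have h3 : ((2 ^ n : ℕ) : ℝ) * (-(1 / (4 * 2 ^ n))) = -(1 / 4) := by
    push_cast
    field_simp
  rw [h3, ← sub_eq_add_neg (1 : ℝ) (1 / (4 * 2 ^ n))] at h2
  have h4 := one_sub_pow_le h0 (half_pow_le k) (2 ^ n)
  have h5 : (1 : ℝ) ≤ ((2 ^ n : ℕ) : ℝ) * (1 / 2) ^ k := by
    push_cast
    obtain ⟨j, rfl⟩ := Nat.exists_eq_add_of_le hk
    rw [pow_add, mul_right_comm, ← mul_pow]
    norm_num
    exact one_le_pow₀ (by norm_num)
  have h6 : (0 : ℝ) ≤ (1 - (1 / 2) ^ k) ^ (2 ^ n) := pow_nonneg (by linarith [half_pow_le k]) _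
  have h7 : (1 - ((1 : ℝ) / 2) ^ k) ^ (2 ^ n) ≤ 1 / 2 := by nlinarith
  rw [hcard] at h1
  have h8 : (3 : ℝ) / 16 ≤ D (A n) (2 ^ n) ((1 / 2) ^ k) := by nlinarith
  have h9 : 1 + (k : ℝ) * (-th n) ≤ (1 + (-th n)) ^ k :=
    one_add_mul_le_pow (by linarith [th_le n]) _
  have h10 : (k : ℝ) * th n ≤ 1 / 2 := by
    unfold th
    have : (k : ℝ) ≤ n := by exact_mod_cast hk
    rw [mul_one_div, div_le_div_iff₀ (by positivity) (by positivity)]
    linarith
  rw [← sub_eq_add_neg] at h9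
  unfold dd
  nlinarith

lemma dd_le_big {n k : ℕ} (hn : 3 ≤ n) (hk : n ≤ 3 * k + 1) : dd n k ≤ 12 / 13 := by
  have h0 : (0 : ℝ) ≤ (1 / 2) ^ k := by positivity
  have h1 := D_le (A := A n) (m := 2 ^ n) h0 (half_pow_le _)
  have h6 : (0 : ℝ) ≤ (1 - (1 / 2) ^ k) ^ (2 ^ n) := pow_nonneg (by linarith [half_pow_le k]) _
  have h2 := one_sub_pow_le (th_pos n).le (th_le n) k
  have h3 : 1 / 12 ≤ (k : ℝ) * th n := by
    unfold th
    have a1 : (3 : ℝ) ≤ n := by exact_mod_cast hn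
    have a2 : (n : ℝ) ≤ 3 * k + 1 := by exact_mod_cast hk
    rw [mul_one_div, div_le_div_iff₀ (by positivity) (by positivity)]
    linarith
  have h4 : (0 : ℝ) ≤ (1 - th n) ^ k := pow_nonneg (by linarith [th_le n]) _
  have h5 : (1 - th n) ^ k ≤ 12 / 13 := by nlinarith
  have h7 := D_nonneg (A := A n) (m := 2 ^ n) ((1 / 2) ^ k)
  unfold dd
  nlinarith

lemma precut : ∃ t : ℕ → ℝ, Tendsto t atTop atTop ∧ ∃ a b : ℝ, 0 < a ∧ a < b ∧
    Tendsto (fun n => dd n ⌊b * t n⌋₊) atTop (𝓝 0) ∧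
    ∃ ε : ℝ, 0 < ε ∧ ∀ᶠ n in atTop, ε ≤ dd n ⌊a * t n⌋₊ := by
  refine ⟨fun n => (n : ℝ), tendsto_natCast_atTop_atTop, 1, 2, one_pos, one_lt_two, ?_, 3 / 32,
    by norm_num, Eventually.of_forall fun n => ?_⟩
  · have h : ∀ n : ℕ, ⌊(2 : ℝ) * (n : ℝ)⌋₊ = 2 * n := by
      intro n
      have : (2 : ℝ) * (n : ℝ) = ((2 * n : ℕ) : ℝ) := by push_cast; ring
      rw [this, Nat.floor_natCast]
    simp only [h]
    exact squeeze_zero (fun n => dd_nonneg _ _) dd_le_small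
      (tendsto_pow_atTop_nhds_zero_of_lt_one (by norm_num) (by norm_num))
  · simp only [one_mul, Nat.floor_natCast]
    exact dd_ge le_rfl

lemma no_cut : ¬ ∃ s : ℕ → ℝ, Tendsto s atTop atTop ∧ ∀ ε : ℝ, 0 < ε → ε < 1 →
    Tendsto (fun n => dd n ⌊(1 + ε) * s n⌋₊) atTop (𝓝 0) ∧
    Tendsto (fun n => dd n ⌊(1 - ε) * s n⌋₊) atTop (𝓝 1) := by
  rintro ⟨s, -, h⟩
  obtain ⟨h1, h2⟩ := h (1 / 2) (by norm_num) (by norm_num)
  have e1 := h1.eventually (gt_mem_nhds (show (0 : ℝ) < 3 / 32 by norm_num))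
  have e2 := h2.eventually (lt_mem_nhds (show (12 : ℝ) / 13 < 1 by norm_num))
  obtain ⟨n, hn1, hn2, hn3⟩ := (e1.and (e2.and (eventually_ge_atTop 3))).exists
  have a1 : n < ⌊(1 + 1 / 2) * s n⌋₊ := by
    by_contra hcon
    have := dd_ge (not_lt.1 hcon)
    linarith
  have a2 : ((n + 1 : ℕ) : ℝ) ≤ (1 + 1 / 2) * s n := (Nat.le_floor_iff' (by omega)).1 a1
  have a3 := Nat.lt_floor_add_one ((1 - 1 / 2) * s n)
  have a4 : (n : ℝ) < 3 * (⌊(1 - 1 / 2) * s n⌋₊ : ℝ) + 2 := by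
    push_cast at a2
    linarith
  have a5 : n < 3 * ⌊(1 - 1 / 2) * s n⌋₊ + 2 := by exact_mod_cast a4
  have := dd_le_big hn3 (k := ⌊(1 - 1 / 2) * s n⌋₊) (by omega)
  linarith

end Pool.Agent.H186Z.Precut
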